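import Mathlib
import Pool.Agent.Helper64.PNT.Primes

/-!
# Counting primes in progressions that avoid residue classes

`thetaAv_tendsto` and `exists_small_prod` are copied from the file of MP_7031b2_nt (author: that file).
-/

set_option autoImplicit false

namespace Pool.Agent.H80W

open Filter Topology

/-- the sum of `log p` over the primes `p ≤ y` with `p ≡ c` modulo `M` which avoid the residue
classes in the list `R` -/
noncomputable def thetaAv (M c : ℕ) (R : List (ℕ × ℕ)) (y : ℝ) : ℝ :=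
  open Classical in
  ∑ p ∈ (Finset.Icc 1 ⌊y⌋₊).filter
    (fun p : ℕ => p.Prime ∧ p ≡ c [MOD M] ∧ ∀ e ∈ R, ¬ p ≡ e.2 [MOD e.1]), Real.log p

/-- the prime number theorem in progressions for primes avoiding the residue classes in `R` -/
theorem thetaAv_tendsto (R : List (ℕ × ℕ)) : ∀ M c : ℕ, 0 < M → c.Coprime M →
    (∀ e ∈ R, e.1.Prime ∧ ¬ e.1 ∣ e.2 ∧ ¬ e.1 ∣ M) → (R.map Prod.fst).Nodup →
    Tendsto (fun y : ℝ => thetaAv M c R y / y) atTop
      (𝓝 ((M.totient : ℝ)⁻¹ * (R.map (fun e => 1 - 1 / ((e.1 : ℝ) - 1))).prod)) := by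
  classical
  induction R with
  | nil =>
    intro M c hM hc _ _
    have : NeZero M := ⟨hM.ne'⟩
    have hb : IsUnit ((c : ℕ) : ZMod M) := (ZMod.unitOfCoprime _ hc).isUnit
    have h1 := Pool.Agent.Helper64.PNT.thetaAP_tendsto hb
    have h2 : ∀ y : ℝ, thetaAv M c [] y = Pool.Agent.Helper64.PNT.thetaAP ((c : ℕ) : ZMod M) y := by
      intro y
      unfold thetaAv Pool.Agent.Helper64.PNT.thetaAP
      apply Finset.sum_congr _ (fun _ _ => rfl)
      apply Finset.filter_congr
      intro p _
      rw [ZMod.natCast_eq_natCast_iff]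
      simp
    simp only [h2, List.map_nil, List.prod_nil, mul_one]
    exact h1
  | cons e R ih =>
    intro M c hM hc hR hnd
    rw [List.map_cons, List.nodup_cons] at hnd
    obtain ⟨hnd1, hnd2⟩ := hnd
    obtain ⟨he1, he2, he3⟩ := hR e List.mem_cons_self
    have hR' : ∀ f ∈ R, f.1.Prime ∧ ¬ f.1 ∣ f.2 ∧ ¬ f.1 ∣ M :=
      fun f hf => hR f (List.mem_cons_of_mem _ hf)
    have hMe : M.Coprime e.1 := ((Nat.Prime.coprime_iff_not_dvd he1).2 he3).symm
    obtain ⟨c', hc'1, hc'2⟩ := Nat.chineseRemainder hMe c e.2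
    have hcop : c'.Coprime (M * e.1) := by
      apply Nat.Coprime.mul_right
      · have h := hc'1.gcd_eq
        rw [Nat.Coprime, h]
        exact hc
      · have h := hc'2.gcd_eq
        rw [Nat.Coprime, h]
        exact ((Nat.Prime.coprime_iff_not_dvd he1).2 he2).symm
    have hR2 : ∀ f ∈ R, f.1.Prime ∧ ¬ f.1 ∣ f.2 ∧ ¬ f.1 ∣ M * e.1 := by
      intro f hf
      obtain ⟨h1, h2, h3⟩ := hR' f hf
      refine ⟨h1, h2, fun h => ?_⟩
      rcases (Nat.Prime.dvd_mul h1).1 h with h4 | h4
      · exact h3 h4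
      · have h5 := (Nat.prime_dvd_prime_iff_eq h1 he1).1 h4
        exact hnd1 (List.mem_map.2 ⟨f, hf, h5⟩)
    have t1 := ih M c hM hc hR' hnd2
    have t2 := ih (M * e.1) c' (Nat.mul_pos hM he1.pos) hcop hR2 hnd2
    have hdiff : ∀ y : ℝ, thetaAv M c (e :: R) y = thetaAv M c R y - thetaAv (M * e.1) c' R y := by
      intro y
      unfold thetaAv
      rw [eq_sub_iff_add_eq, Finset.sum_filter, Finset.sum_filter, Finset.sum_filter,
        ← Finset.sum_add_distrib]
      apply Finset.sum_congr rfl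
      intro p _
      have hiff : p ≡ c' [MOD M * e.1] ↔ (p ≡ c [MOD M] ∧ p ≡ e.2 [MOD e.1]) := by
        rw [← Nat.modEq_and_modEq_iff_modEq_mul hMe]
        constructor
        · rintro ⟨h1, h2⟩
          exact ⟨h1.trans hc'1, h2.trans hc'2⟩
        · rintro ⟨h1, h2⟩
          exact ⟨h1.trans hc'1.symm, h2.trans hc'2.symm⟩
      simp only [hiff, List.forall_mem_cons]
      by_cases h1 : p.Prime <;> by_cases h2 : p ≡ c [MOD M] <;> by_cases h3 : p ≡ e.2 [MOD e.1] <;>
        by_cases h4 : ∀ e ∈ R, ¬ p ≡ e.2 [MOD e.1] <;> simp [h1, h2, h3]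
    have t3 := t1.sub t2
    refine (t3.congr (fun y => ?_)).trans_eq ?_
    · rw [hdiff y, sub_div]
    · congr 1
      rw [Nat.totient_mul hMe, Nat.totient_prime he1, List.map_cons, List.prod_cons]
      push_cast [he1.one_le]
      rw [mul_inv]
      ring

/-- products of `1 - 1 / (r - 1)` over large primes `r` are as small as we like -/
theorem exists_small_prod (D : ℕ) (ε : ℝ) (hε : 0 < ε) : ∃ R : Finset ℕ,
    (∀ r ∈ R, r.Prime ∧ D < r) ∧ ∏ r ∈ R, (1 - 1 / ((r : ℝ) - 1)) < ε := by
  classical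
  have h1 := (not_summable_iff_tendsto_nat_atTop_of_nonneg (f := Set.indicator {p : ℕ | p.Prime}
    (fun n : ℕ => (1 : ℝ) / n)) (fun n => Set.indicator_nonneg (fun _ _ => by positivity) n)).1
    not_summable_one_div_on_primes
  obtain ⟨n, hn⟩ := (h1.eventually_ge_atTop (1 - Real.log ε +
    ∑ i ∈ Finset.range (D + 3),
      Set.indicator {p : ℕ | p.Prime} (fun n : ℕ => (1 : ℝ) / n) i)).exists
  refine ⟨(Finset.range n).filter (fun r => r.Prime ∧ D + 2 < r), ?_, ?_⟩
  · intro r hr
    rw [Finset.mem_filter] at hr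
    exact ⟨hr.2.1, by omega⟩
  · have h2 : ∑ i ∈ Finset.range n, Set.indicator {p : ℕ | p.Prime} (fun n : ℕ => (1 : ℝ) / n) i ≤
        ∑ r ∈ (Finset.range n).filter (fun r => r.Prime ∧ D + 2 < r), 1 / ((r : ℝ) - 1) +
        ∑ i ∈ Finset.range (D + 3),
          Set.indicator {p : ℕ | p.Prime} (fun n : ℕ => (1 : ℝ) / n) i := by
      have h3 : ∀ i, 0 ≤ Set.indicator {p : ℕ | p.Prime} (fun n : ℕ => (1 : ℝ) / n) i :=
        fun n => Set.indicator_nonneg (fun _ _ => by positivity) n
      rw [← Finset.sum_filter_add_sum_filter_not (Finset.range n) (fun r => r.Prime ∧ D + 2 < r)]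
      apply add_le_add
      · apply Finset.sum_le_sum
        intro r hr
        rw [Finset.mem_filter] at hr
        rw [Set.indicator_of_mem (show r ∈ {p : ℕ | p.Prime} from hr.2.1)]
        have h4 : (2 : ℝ) < r := by exact_mod_cast (by omega : 2 < r)
        apply one_div_le_one_div_of_le <;> linarith
      · rw [← Finset.sum_filter_of_ne (p := fun i => i ∈ Finset.range (D + 3))]
        · apply Finset.sum_le_sum_of_subset_of_nonneg
          · intro i hi
            rw [Finset.mem_filter] at hi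
            exact hi.2
          · intro i _ _
            exact h3 i
        · intro i hi hne
          rw [Finset.mem_filter] at hi
          have h5 : i.Prime := by
            by_contra hcon
            exact hne (Set.indicator_of_notMem hcon _)
          rw [Finset.mem_range]
          by_contra hcon
          exact hi.2 ⟨h5, by omega⟩
    have h6 : 1 - Real.log ε ≤
        ∑ r ∈ (Finset.range n).filter (fun r => r.Prime ∧ D + 2 < r), 1 / ((r : ℝ) - 1) := by
      linarith
    calc ∏ r ∈ (Finset.range n).filter (fun r => r.Prime ∧ D + 2 < r), (1 - 1 / ((r : ℝ) - 1))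
        ≤ ∏ r ∈ (Finset.range n).filter (fun r => r.Prime ∧ D + 2 < r),
            Real.exp (-(1 / ((r : ℝ) - 1))) := by
          apply Finset.prod_le_prod
          · intro r hr
            rw [Finset.mem_filter] at hr
            have h4 : (2 : ℝ) < r := by exact_mod_cast (by omega : 2 < r)
            have h7 : 1 / ((r : ℝ) - 1) ≤ 1 := by
              rw [div_le_one (by linarith)]
              linarith
            linarith
          · intro r _
            have := Real.add_one_le_exp (-(1 / ((r : ℝ) - 1)))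
            linarith
      _ = Real.exp (∑ r ∈ (Finset.range n).filter (fun r => r.Prime ∧ D + 2 < r),
            (-(1 / ((r : ℝ) - 1)))) := (Real.exp_sum _ _).symm
      _ ≤ Real.exp (Real.log ε - 1) := by
          apply Real.exp_le_exp.2
          rw [Finset.sum_neg_distrib]
          linarith
      _ < Real.exp (Real.log ε) := by
          apply Real.exp_lt_exp.2
          linarith
      _ = ε := Real.exp_log hε

/-- a constant is at most `ε X / log X` for large `X` -/
theorem eventually_const_le (C ε : ℝ) (hε : 0 < ε) :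
    ∀ᶠ X : ℕ in atTop, C ≤ ε * ((X : ℝ) / Real.log X) := by
  have h1 : ∀ᶠ X : ℕ in atTop, Real.log (X : ℝ) ≤ (ε / (|C| + 1)) * X := by
    have h6 := (Real.isLittleO_log_id_atTop.comp_tendsto
      (tendsto_natCast_atTop_atTop (R := ℝ))).bound (c := ε / (|C| + 1)) (by positivity)
    filter_upwards [h6] with X hX
    simp only [Function.comp, id, Real.norm_eq_abs, Nat.abs_cast] at hX
    exact (le_abs_self _).trans hX
  filter_upwards [h1, eventually_ge_atTop 2] with X hX hX2
  have hlog : 0 < Real.log (X : ℝ) := Real.log_pos (by exact_mod_cast (by omega : 1 < X))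
  rw [← mul_div_assoc, le_div_iff₀ hlog]
  have h2 : (|C| + 1) * Real.log X ≤ ε * X := by
    calc (|C| + 1) * Real.log X ≤ (|C| + 1) * ((ε / (|C| + 1)) * X) := by gcongr
      _ = ε * X := by field_simp
  nlinarith [le_abs_self C]


/-- the number of `p ≤ y` with `Q p` -/
noncomputable def cnt (Q : ℕ → Prop) (y : ℝ) : ℕ :=
  open Classical in ((Finset.Icc 1 ⌊y⌋₊).filter Q).card

/-- the sum of `log p` over the `p ≤ y` with `Q p` -/
noncomputable def th (Q : ℕ → Prop) (y : ℝ) : ℝ :=
  open Classical in ∑ p ∈ (Finset.Icc 1 ⌊y⌋₊).filter Q, Real.log p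

theorem th_nonneg (Q : ℕ → Prop) (y : ℝ) : 0 ≤ th Q y := by
  classical
  unfold th
  apply Finset.sum_nonneg
  intro p hp
  rw [Finset.mem_filter, Finset.mem_Icc] at hp
  exact Real.log_nonneg (by exact_mod_cast hp.1.1)

theorem th_le (Q : ℕ → Prop) {y : ℝ} (hy : 1 ≤ y) : th Q y ≤ cnt Q y * Real.log y := by
  classical
  unfold th cnt
  rw [← nsmul_eq_mul]
  apply Finset.sum_le_card_nsmul
  intro p hp
  rw [Finset.mem_filter, Finset.mem_Icc] at hp
  have h1 : (p : ℝ) ≤ y := (Nat.le_floor_iff (by linarith)).1 hp.1.2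
  exact Real.log_le_log (by exact_mod_cast hp.1.1) h1

theorem cnt_le (Q : ℕ → Prop) {y δ : ℝ} (hy : 1 < y) (hδ : δ < 1) :
    (cnt Q y : ℝ) ≤ y ^ (1 - δ) + th Q y / ((1 - δ) * Real.log y) := by
  classical
  have hy0 : 0 < y := by linarith
  have hlog : 0 < Real.log y := Real.log_pos hy
  have hd : 0 < (1 - δ) * Real.log y := mul_pos (by linarith) hlog
  obtain ⟨S, hS⟩ : ∃ S : Finset ℕ, S = (Finset.Icc 1 ⌊y⌋₊).filter Q := ⟨_, rfl⟩
  have hcnt : cnt Q y = S.card := by rw [hS]; unfold cnt; congr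
  have hth : th Q y = ∑ p ∈ S, Real.log (p : ℝ) := by rw [hS]; unfold th; congr
  have h1 : S.card = (S.filter (fun p : ℕ => (p : ℝ) ≤ y ^ (1 - δ))).card +
      (S.filter (fun p : ℕ => ¬ (p : ℝ) ≤ y ^ (1 - δ))).card :=
    (Finset.card_filter_add_card_filter_not _).symm
  have h2 : ((S.filter (fun p : ℕ => (p : ℝ) ≤ y ^ (1 - δ))).card : ℝ) ≤ y ^ (1 - δ) := by
    have h3 : S.filter (fun p : ℕ => (p : ℝ) ≤ y ^ (1 - δ)) ⊆ Finset.Icc 1 ⌊y ^ (1 - δ)⌋₊ := by
      intro p hp
      rw [Finset.mem_filter, hS, Finset.mem_filter, Finset.mem_Icc] at hp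
      rw [Finset.mem_Icc]
      exact ⟨hp.1.1.1, (Nat.le_floor_iff (by positivity)).2 hp.2⟩
    have h4 := Finset.card_le_card h3
    rw [Nat.card_Icc, Nat.add_sub_cancel] at h4
    calc ((S.filter (fun p : ℕ => (p : ℝ) ≤ y ^ (1 - δ))).card : ℝ) ≤ (⌊y ^ (1 - δ)⌋₊ : ℝ) := by
          exact_mod_cast h4
      _ ≤ y ^ (1 - δ) := Nat.floor_le (by positivity)
  have h5 : ((S.filter (fun p : ℕ => ¬ (p : ℝ) ≤ y ^ (1 - δ))).card : ℝ) *
      ((1 - δ) * Real.log y) ≤ th Q y := by
    rw [← nsmul_eq_mul]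
    refine le_trans (Finset.card_nsmul_le_sum _ (fun p : ℕ => Real.log (p : ℝ)) _ ?_) ?_
    · intro p hp
      rw [Finset.mem_filter] at hp
      have h6 : y ^ (1 - δ) ≤ (p : ℝ) := (not_le.1 hp.2).le
      have h7 := Real.log_le_log (by positivity) h6
      rwa [Real.log_rpow hy0] at h7
    · rw [hth]
      apply Finset.sum_le_sum_of_subset_of_nonneg (Finset.filter_subset _ _)
      intro p hp _
      rw [hS, Finset.mem_filter, Finset.mem_Icc] at hp
      exact Real.log_nonneg (by exact_mod_cast hp.1.1)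
  rw [← le_div_iff₀ hd] at h5
  rw [hcnt, h1]
  push_cast
  linarith

/-- from sums of logarithms to numbers -/
theorem cnt_tendsto (Q : ℕ → Prop) (L : ℝ)
    (h : Tendsto (fun y : ℝ => th Q y / y) atTop (𝓝 L)) :
    Tendsto (fun y : ℝ => cnt Q y * Real.log y / y) atTop (𝓝 L) := by
  have hL : 0 ≤ L := ge_of_tendsto h (by
    filter_upwards [eventually_gt_atTop 0] with y hy
    exact div_nonneg (th_nonneg Q y) hy.le)
  refine tendsto_order.2 ⟨fun a ha => ?_, fun b hb => ?_⟩
  · filter_upwards [h.eventually (lt_mem_nhds ha), eventually_ge_atTop 1] with y h1 h2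
    refine lt_of_lt_of_le h1 ?_
    exact div_le_div_of_nonneg_right (th_le Q h2) (by linarith)
  · obtain ⟨δ, hδ⟩ : ∃ δ : ℝ, δ = (b - L) / (2 * b) := ⟨_, rfl⟩
    have hb0 : 0 < b := by linarith
    have hδ0 : 0 < δ := by rw [hδ]; apply div_pos <;> linarith
    have hδb : δ * b = (b - L) / 2 := by rw [hδ]; field_simp
    have hδ1 : δ < 1 := by nlinarith
    have h1 : L / (1 - δ) < b := by
      rw [div_lt_iff₀ (by linarith)]
      nlinarith
    have h2 : Tendsto (fun y : ℝ => Real.log y / y ^ δ + th Q y / y / (1 - δ)) atTop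
        (𝓝 (0 + L / (1 - δ))) := by
      apply Tendsto.add
      · exact (isLittleO_log_rpow_atTop hδ0).tendsto_div_nhds_zero
      · exact h.div_const _
    rw [zero_add] at h2
    filter_upwards [h2.eventually (gt_mem_nhds h1), eventually_gt_atTop 1] with y h3 h4
    have hy0 : 0 < y := by linarith
    have hlog : 0 < Real.log y := Real.log_pos h4
    refine lt_of_le_of_lt ?_ h3
    have h5 := cnt_le Q h4 hδ1
    have h6 : (1 - δ) ≠ 0 := by linarith
    calc (cnt Q y : ℝ) * Real.log y / y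
        ≤ (y ^ (1 - δ) + th Q y / ((1 - δ) * Real.log y)) * Real.log y / y := by gcongr
      _ = Real.log y * (y ^ (1 - δ) / y) + th Q y / y / (1 - δ) := by
          field_simp
      _ = Real.log y / y ^ δ + th Q y / y / (1 - δ) := by
          rw [Real.rpow_sub hy0, Real.rpow_one]
          field_simp

end Pool.Agent.H80W
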