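import Pool.Agent.H80W.Base

/-!
# Least witnesses for `q n + π(q)`: asymptotic counts
-/

set_option autoImplicit false

namespace Pool.Agent.H80W

open Filter Topology

lemma pc_lt {p : ℕ} (hp : p.Prime) : p.primeCounting < p := by
  rw [← Nat.primesLE_card_eq_primeCounting]
  have h1 : p.primesLE ⊆ Finset.Icc 2 p := by
    intro q hq
    rw [Nat.mem_primesLE] at hq
    exact Finset.mem_Icc.mpr ⟨hq.2.two_le, hq.1⟩
  have h2 := Finset.card_le_card h1
  rw [Nat.card_Icc] at h2
  have := hp.two_le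
  omega

lemma pc_pos {p : ℕ} (hp : p.Prime) : 0 < p.primeCounting := by
  rw [Nat.pos_iff_ne_zero, Ne, Nat.primeCounting_eq_zero_iff]
  have := hp.two_le
  omega

/-- counting up to `p X + k` instead of `X` -/
theorem cnt_comp (Q : ℕ → Prop) (L : ℝ) (h : Tendsto (fun y : ℝ => th Q y / y) atTop (𝓝 L))
    (p k : ℕ) (hp : 0 < p) :
    Tendsto (fun X : ℕ => (cnt Q ((p * X + k : ℕ) : ℝ) : ℝ) / ((X : ℝ) / Real.log X)) atTop
      (𝓝 (p * L)) := by
  have h0 := cnt_tendsto Q L h
  have hpR : (0 : ℝ) < p := by exact_mod_cast hp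
  have hy : Tendsto (fun X : ℕ => ((p * X + k : ℕ) : ℝ)) atTop atTop := by
    apply tendsto_natCast_atTop_atTop.comp
    apply tendsto_atTop_mono (f := fun X : ℕ => X) (fun X => ?_) tendsto_id
    have : 1 * X ≤ p * X := Nat.mul_le_mul_right X hp
    omega
  have h1 := h0.comp hy
  -- `(p X + k) / X → p`
  have h2 : Tendsto (fun X : ℕ => (p : ℝ) + k / X) atTop (𝓝 ((p : ℝ) + 0)) :=
    tendsto_const_nhds.add (tendsto_const_div_atTop_nhds_zero_nat _)
  rw [add_zero] at h2
  have h3 : Tendsto (fun X : ℕ => Real.log (X : ℝ)) atTop atTop :=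
    Real.tendsto_log_atTop.comp tendsto_natCast_atTop_atTop
  have h4 : Tendsto (fun X : ℕ => Real.log ((p : ℝ) + k / X)) atTop (𝓝 (Real.log p)) :=
    ((Real.continuousAt_log hpR.ne').tendsto).comp h2
  have h5 : Tendsto (fun X : ℕ => 1 + Real.log ((p : ℝ) + k / X) / Real.log (X : ℝ)) atTop
      (𝓝 (1 + 0)) := tendsto_const_nhds.add (h4.div_atTop h3)
  rw [add_zero] at h5
  have h6 := (h1.mul h2).div h5 one_ne_zero
  rw [div_one] at h6
  rw [mul_comm (p : ℝ) L]
  refine h6.congr' ?_
  filter_upwards [eventually_ge_atTop 2] with X hX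
  have hX0 : (0 : ℝ) < X := by exact_mod_cast (by omega : 0 < X)
  have hlog : 0 < Real.log (X : ℝ) := Real.log_pos (by exact_mod_cast (by omega : 1 < X))
  have hk0 : (0 : ℝ) ≤ k := Nat.cast_nonneg k
  have hpk : (0 : ℝ) < (p : ℝ) + k / X := by positivity
  have e1 : ((p * X + k : ℕ) : ℝ) = X * ((p : ℝ) + k / X) := by
    push_cast
    field_simp
  have hyX : (1 : ℝ) < ((p * X + k : ℕ) : ℝ) := by
    have : 1 * X ≤ p * X := Nat.mul_le_mul_right X hp
    exact_mod_cast (by omega : 1 < p * X + k)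
  have hlogy : 0 < Real.log ((p * X + k : ℕ) : ℝ) := Real.log_pos hyX
  have e2 : Real.log ((p * X + k : ℕ) : ℝ) = Real.log X + Real.log ((p : ℝ) + k / X) := by
    rw [e1, Real.log_mul hX0.ne' hpk.ne']
  have e3 : 1 + Real.log ((p : ℝ) + k / X) / Real.log (X : ℝ) =
      Real.log ((p * X + k : ℕ) : ℝ) / Real.log X := by
    rw [e2]
    field_simp
  simp only [Function.comp, Pi.div_apply]
  rw [e3]
  have hy0 : (0 : ℝ) < ((p * X + k : ℕ) : ℝ) := by linarith
  have e4 : (p : ℝ) + k / X = ((p * X + k : ℕ) : ℝ) / X := by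
    rw [e1]; field_simp
  rw [e4]
  field_simp

/-- the numbers `n ≤ X`, `n ≡ a` modulo `m`, for which `p n + k` is prime -/
noncomputable def F (m a p k X : ℕ) : Finset ℕ :=
  open Classical in (Finset.Icc 1 X).filter (fun n => n ≡ a [MOD m] ∧ (p * n + k).Prime)

theorem count_F (m a p k : ℕ) (hm : 0 < m) (hp : 0 < p) (hc : Nat.Coprime (p * a + k) (p * m)) :
    Tendsto (fun X : ℕ => ((F m a p k X).card : ℝ) / ((X : ℝ) / Real.log X)) atTop
      (𝓝 ((p : ℝ) / (p * m).totient)) := by
  classical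
  obtain ⟨Q, hQ⟩ : ∃ Q : ℕ → Prop, Q = fun l => l.Prime ∧ l ≡ p * a + k [MOD p * m] := ⟨_, rfl⟩
  have hpm : 0 < p * m := Nat.mul_pos hp hm
  have hth : Tendsto (fun y : ℝ => th Q y / y) atTop (𝓝 (((p * m).totient : ℝ)⁻¹)) := by
    have h1 := thetaAv_tendsto [] (p * m) (p * a + k) hpm hc (by simp) (by simp)
    simp only [List.map_nil, List.prod_nil, mul_one] at h1
    refine h1.congr (fun y => ?_)
    congr 1
    unfold thetaAv th
    apply Finset.sum_congr _ (fun _ _ => rfl)
    apply Finset.filter_congr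
    intro l _
    rw [hQ]
    simp
  have h2 := cnt_comp Q _ hth p k hp
  have hle : ∀ X : ℕ, (F m a p k X).card ≤ cnt Q ((p * X + k : ℕ) : ℝ) := by
    intro X
    unfold cnt
    apply Finset.card_le_card_of_injOn (fun n => p * n + k)
    · intro n hn
      unfold F at hn
      rw [Finset.mem_coe, Finset.mem_filter, Finset.mem_Icc] at hn
      rw [Finset.mem_coe, Finset.mem_filter, Finset.mem_Icc, Nat.floor_natCast, hQ]
      obtain ⟨⟨h3, h4⟩, h5, h6⟩ := hn
      refine ⟨⟨h6.pos, ?_⟩, h6, ?_⟩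
      · show p * n + k ≤ p * X + k
        have := Nat.mul_le_mul_left p h4
        omega
      · exact Nat.ModEq.add_right k (Nat.ModEq.mul_left' p h5)
    · intro n _ n' _ h
      simp only at h
      exact Nat.eq_of_mul_eq_mul_left hp (by omega)
  have hge : ∀ X : ℕ, cnt Q ((p * X + k : ℕ) : ℝ) ≤ (F m a p k X).card + k := by
    intro X
    unfold cnt
    rw [Nat.floor_natCast]
    have h3 : (Finset.Icc 1 (p * X + k)).filter Q ⊆
        (F m a p k X).image (fun n => p * n + k) ∪ Finset.Icc 1 k := by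
      intro l hl
      rw [Finset.mem_filter, Finset.mem_Icc, hQ] at hl
      obtain ⟨⟨h4, h5⟩, h6, h7⟩ := hl
      rw [Finset.mem_union, Finset.mem_image, Finset.mem_Icc]
      by_cases hlk : l ≤ k
      · exact Or.inr ⟨h4, hlk⟩
      · left
        have h8 : l ≡ k [MOD p] := by
          have h9 : l ≡ p * a + k [MOD p] := Nat.ModEq.of_dvd ⟨m, rfl⟩ h7
          refine h9.trans ?_
          have := Nat.ModEq.add_right k ((Nat.modEq_zero_iff_dvd (n := p) (a := p * a)).2 ⟨a, rfl⟩)
          simpa using this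
        obtain ⟨n, hn⟩ := (Nat.modEq_iff_dvd' (by omega : k ≤ l)).1 h8.symm
        have hl2 : l = p * n + k := by omega
        have hn0 : 0 < n := by
          rcases Nat.eq_zero_or_pos n with h0 | h0
          · rw [h0] at hl2; omega
          · exact h0
        refine ⟨n, ?_, hl2.symm⟩
        unfold F
        rw [Finset.mem_filter, Finset.mem_Icc]
        refine ⟨⟨hn0, ?_⟩, ?_, hl2 ▸ h6⟩
        · have : p * n ≤ p * X := by omega
          exact Nat.le_of_mul_le_mul_left this hp
        · rw [hl2] at h7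
          exact Nat.ModEq.mul_left_cancel' hp.ne' (Nat.ModEq.add_right_cancel' k h7)
    calc ((Finset.Icc 1 (p * X + k)).filter Q).card
        ≤ ((F m a p k X).image (fun n => p * n + k) ∪ Finset.Icc 1 k).card :=
          Finset.card_le_card h3
      _ ≤ ((F m a p k X).image (fun n => p * n + k)).card + (Finset.Icc 1 k).card :=
          Finset.card_union_le _ _
      _ ≤ (F m a p k X).card + k := by
          rw [Nat.card_Icc, Nat.add_sub_cancel]
          exact Nat.add_le_add_right Finset.card_image_le k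
  have h7 : Tendsto (fun X : ℕ => (k : ℝ) / ((X : ℝ) / Real.log X)) atTop (𝓝 0) := by
    refine tendsto_const_nhds.div_atTop ?_
    have h8 : Tendsto (fun y : ℝ => Real.log y / y) atTop (𝓝[>] 0) := by
      refine tendsto_nhdsWithin_iff.2 ⟨Real.isLittleO_log_id_atTop.tendsto_div_nhds_zero, ?_⟩
      filter_upwards [eventually_gt_atTop 1] with y hy
      exact div_pos (Real.log_pos hy) (by linarith)
    have h9 := (tendsto_inv_nhdsGT_zero.comp h8).comp (tendsto_natCast_atTop_atTop (R := ℝ))
    refine h9.congr (fun X => ?_)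
    simp only [Function.comp, inv_div]
  have h8 := h2.sub h7
  rw [sub_zero] at h8
  have e : (p : ℝ) * ((p * m).totient : ℝ)⁻¹ = (p : ℝ) / (p * m).totient := by
    rw [div_eq_mul_inv]
  rw [e] at h2 h8
  refine tendsto_of_tendsto_of_tendsto_of_le_of_le' h8 h2 ?_ ?_
  · filter_upwards [eventually_ge_atTop 2] with X hX
    have hX0 : (0 : ℝ) < X := by exact_mod_cast (by omega : 0 < X)
    have hlog : 0 < Real.log (X : ℝ) := Real.log_pos (by exact_mod_cast (by omega : 1 < X))
    rw [← sub_div]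
    apply div_le_div_of_nonneg_right _ (by positivity)
    have : ((cnt Q ((p * X + k : ℕ) : ℝ) : ℕ) : ℝ) ≤ (F m a p k X).card + k := by
      exact_mod_cast hge X
    linarith
  · filter_upwards [eventually_ge_atTop 2] with X hX
    have hX0 : (0 : ℝ) < X := by exact_mod_cast (by omega : 0 < X)
    have hlog : 0 < Real.log (X : ℝ) := Real.log_pos (by exact_mod_cast (by omega : 1 < X))
    apply div_le_div_of_nonneg_right _ (by positivity)
    exact_mod_cast hle X

/-- the numbers `n ≤ X` for which `p n + k` and `q n + j` are both prime -/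
noncomputable def G (p k q j X : ℕ) : Finset ℕ :=
  open Classical in
  (Finset.Icc 1 X).filter (fun n => (p * n + k).Prime ∧ (q * n + j).Prime)

theorem count_G (p k q j : ℕ) (hp : 0 < p) (hq : 0 < q) (hd : q * k ≠ p * j) :
    Tendsto (fun X : ℕ => ((G p k q j X).card : ℝ) / ((X : ℝ) / Real.log X)) atTop (𝓝 0) := by
  classical
  have key : ∀ ε : ℝ, 0 < ε → ∀ᶠ X : ℕ in atTop,
      ((G p k q j X).card : ℝ) / ((X : ℝ) / Real.log X) < ε := by
    intro ε hε
    have hpR : (0 : ℝ) < p := by exact_mod_cast hp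
    obtain ⟨R, hR1, hR2⟩ := exists_small_prod (p + q + q * k + p * j) (ε / (2 * p))
      (by positivity)
    have hcl : ∀ r ∈ R, ∃ c : ℕ, ¬ r ∣ c ∧ ∀ l : ℕ, l ≡ c [MOD r] →
        (r : ℤ) ∣ q * l - (q * k - p * j) := by
      intro r hr
      obtain ⟨hr1, hr2⟩ := hR1 r hr
      have : Fact r.Prime := ⟨hr1⟩
      have hA : ((q : ℕ) : ZMod r) ≠ 0 := by
        rw [Ne, ZMod.natCast_eq_zero_iff]
        exact Nat.not_dvd_of_pos_of_lt hq (by omega)
      have hB : (((q * k - p * j : ℤ)) : ZMod r) ≠ 0 := by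
        rw [Ne, ZMod.intCast_zmod_eq_zero_iff_dvd, Int.natCast_dvd]
        apply Nat.not_dvd_of_pos_of_lt
        · have : (q * k : ℤ) ≠ p * j := by exact_mod_cast hd
          omega
        · have h1 : ((q : ℤ) * k - p * j).natAbs ≤ q * k + p * j := by
            have h2 : (0 : ℤ) ≤ (q : ℤ) * k := by positivity
            have h3 : (0 : ℤ) ≤ (p : ℤ) * j := by positivity
            zify
            rw [abs_le]
            constructor <;> linarith
          omega
      refine ⟨((((q * k - p * j : ℤ)) : ZMod r) / ((q : ℕ) : ZMod r)).val, ?_, ?_⟩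
      · rw [← ZMod.natCast_eq_zero_iff, ZMod.natCast_zmod_val]
        exact div_ne_zero hB hA
      · intro l hl
        rw [← ZMod.natCast_eq_natCast_iff, ZMod.natCast_zmod_val, eq_div_iff hA] at hl
        rw [← ZMod.intCast_zmod_eq_zero_iff_dvd]
        push_cast at hl ⊢
        rw [← hl]
        ring
    choose! c hc1 hc2 using hcl
    obtain ⟨L, hL⟩ : ∃ L : List (ℕ × ℕ), L = R.toList.map (fun r => (r, c r)) := ⟨_, rfl⟩
    have hLmem : ∀ e ∈ L, e.1 ∈ R ∧ e.2 = c e.1 := by
      intro e he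
      rw [hL, List.mem_map] at he
      obtain ⟨r, hr, rfl⟩ := he
      exact ⟨Finset.mem_toList.1 hr, rfl⟩
    have t1 := thetaAv_tendsto L 1 0 one_pos (by simp) (by
      intro e he
      obtain ⟨h1, h2⟩ := hLmem e he
      refine ⟨(hR1 _ h1).1, h2 ▸ hc1 _ h1, (hR1 _ h1).1.not_dvd_one⟩) (by
      rw [hL, List.map_map]
      simpa [Function.comp_def] using R.nodup_toList)
    have hprod : (L.map (fun e => 1 - 1 / ((e.1 : ℝ) - 1))).prod =
        ∏ r ∈ R, (1 - 1 / ((r : ℝ) - 1)) := by
      rw [hL, List.map_map, ← Finset.prod_map_toList]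
      rfl
    rw [hprod, Nat.totient_one, Nat.cast_one, inv_one, one_mul] at t1
    obtain ⟨Q, hQ⟩ : ∃ Q : ℕ → Prop, Q = fun l : ℕ => l.Prime ∧ l ≡ 0 [MOD 1] ∧
      ∀ e ∈ L, ¬ l ≡ e.2 [MOD e.1] := ⟨_, rfl⟩
    have hth : Tendsto (fun y : ℝ => th Q y / y) atTop
        (𝓝 (∏ r ∈ R, (1 - 1 / ((r : ℝ) - 1)))) := by
      refine t1.congr (fun y => ?_)
      congr 1
      unfold thetaAv th
      apply Finset.sum_congr _ (fun _ _ => rfl)
      apply Finset.filter_congr
      intro l _
      rw [hQ]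
    have t2 := cnt_comp Q _ hth p k hp
    have hlt : (p : ℝ) * ∏ r ∈ R, (1 - 1 / ((r : ℝ) - 1)) < ε / 2 := by
      calc (p : ℝ) * ∏ r ∈ R, (1 - 1 / ((r : ℝ) - 1)) < p * (ε / (2 * p)) :=
            mul_lt_mul_of_pos_left hR2 hpR
        _ = ε / 2 := by field_simp
    filter_upwards [t2.eventually (gt_mem_nhds hlt),
      eventually_const_le (R.card) (ε / 2) (by positivity), eventually_ge_atTop 2] with X h1 h2 h3
    have hX0 : (0 : ℝ) < X := by exact_mod_cast (by omega : 0 < X)
    have hlog : 0 < Real.log (X : ℝ) := Real.log_pos (by exact_mod_cast (by omega : 1 < X))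
    have hg : 0 < (X : ℝ) / Real.log X := by positivity
    rw [div_lt_iff₀ hg] at h1 ⊢
    have hsub : G p k q j X ⊆ R.image (fun r => (r - j) / q) ∪
        ((Finset.Icc 1 (p * X + k)).filter Q).image (fun l => (l - k) / p) := by
      intro n hn
      unfold G at hn
      rw [Finset.mem_filter, Finset.mem_Icc] at hn
      obtain ⟨⟨hn1, hn2⟩, hl1, hl2⟩ := hn
      rw [Finset.mem_union, Finset.mem_image, Finset.mem_image]
      by_cases hR : q * n + j ∈ R
      · refine Or.inl ⟨_, hR, ?_⟩
        rw [Nat.add_sub_cancel]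
        exact Nat.mul_div_cancel_left n hq
      · refine Or.inr ⟨p * n + k, ?_, ?_⟩
        · rw [Finset.mem_filter, Finset.mem_Icc, hQ]
          refine ⟨⟨hl1.pos, ?_⟩, hl1, Nat.modEq_one, ?_⟩
          · have := Nat.mul_le_mul_left p hn2
            omega
          · intro e he hmod
            obtain ⟨he1, he2⟩ := hLmem e he
            rw [he2] at hmod
            obtain ⟨hr1, hr2⟩ := hR1 _ he1
            have h5 := hc2 _ he1 _ hmod
            have h7 : (q : ℤ) * ((p * n + k : ℕ) : ℤ) - (q * k - p * j) =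
                ((p * (q * n + j) : ℕ) : ℤ) := by
              push_cast
              ring
            rw [h7, Int.natCast_dvd_natCast] at h5
            rcases (Nat.Prime.dvd_mul hr1).1 h5 with h8 | h8
            · exact Nat.not_dvd_of_pos_of_lt hp (by omega) h8
            · have h9 := (Nat.prime_dvd_prime_iff_eq hr1 hl2).1 h8
              exact hR (h9 ▸ he1)
        · rw [Nat.add_sub_cancel]
          exact Nat.mul_div_cancel_left n hp
    have hcard : (G p k q j X).card ≤ R.card + cnt Q ((p * X + k : ℕ) : ℝ) := by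
      have h10 : cnt Q ((p * X + k : ℕ) : ℝ) = ((Finset.Icc 1 (p * X + k)).filter Q).card := by
        unfold cnt
        rw [Nat.floor_natCast]
      rw [h10]
      exact (Finset.card_le_card hsub).trans ((Finset.card_union_le _ _).trans
        (Nat.add_le_add Finset.card_image_le Finset.card_image_le))
    have hcardR : ((G p k q j X).card : ℝ) ≤ R.card + cnt Q ((p * X + k : ℕ) : ℝ) := by
      exact_mod_cast hcard
    linarith
  refine tendsto_order.2 ⟨fun b hb => ?_, fun b hb => key b hb⟩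
  filter_upwards [eventually_ge_atTop 2] with X hX
  refine lt_of_lt_of_le hb ?_
  have hlog : 0 < Real.log (X : ℝ) := Real.log_pos (by exact_mod_cast (by omega : 1 < X))
  positivity

lemma finite_case (m a p : ℕ) (hm : 0 < m) (hp : p.Prime)
    (h : ¬ Nat.Coprime (p * a + p.primeCounting) m) :
    {n : ℕ | n ≡ a [MOD m] ∧
      IsLeast {q : ℕ | q.Prime ∧ (q * n + q.primeCounting).Prime} p}.Finite := by
  obtain ⟨l, hl, h1, h2⟩ := Nat.Prime.not_coprime_iff_dvd.mp h
  apply (Set.finite_Iic m).subset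
  rintro n ⟨hn, hleast⟩
  have hprime := hleast.1.2
  have hnl : n ≡ a [MOD l] := hn.of_dvd h2
  have h3 : p * n + p.primeCounting ≡ p * a + p.primeCounting [MOD l] :=
    (hnl.mul_left p).add_right _
  have h4 : l ∣ p * n + p.primeCounting := by
    rw [← Nat.modEq_zero_iff_dvd] at h1 ⊢
    exact h3.trans h1
  have h5 : l = p * n + p.primeCounting := (Nat.prime_dvd_prime_iff_eq hl hprime).mp h4
  have h6 : l ≤ m := Nat.le_of_dvd hm h2
  have h7 : n ≤ p * n := Nat.le_mul_of_pos_left n hp.pos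
  rw [Set.mem_Iic]
  omega

lemma many_primes (m a : ℕ) (hm : 0 < m) :
    {p : ℕ | p.Prime ∧ Nat.Coprime (p * a + p.primeCounting) m}.Infinite := by
  classical
  apply Set.infinite_of_forall_exists_gt
  intro N
  set A := ∏ l ∈ m.primeFactors.filter (fun l => ¬ l ∣ a), l with hA
  set A' := ∏ l ∈ m.primeFactors.filter (fun l => l ∣ a), l with hA'
  have hApos : 0 < A := Finset.prod_pos (fun l hl =>
    (Nat.prime_of_mem_primeFactors (Finset.mem_filter.mp hl).1).pos)
  have hA'pos : 0 < A' := Finset.prod_pos (fun l hl =>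
    (Nat.prime_of_mem_primeFactors (Finset.mem_filter.mp hl).1).pos)
  set k := A * (1 + A' * (N + m)) with hk
  have hkN : N + m < k := by
    rw [hk]
    have h1 : N + m ≤ A' * (N + m) := Nat.le_mul_of_pos_left _ hA'pos
    have h2 : 1 + A' * (N + m) ≤ A * (1 + A' * (N + m)) := Nat.le_mul_of_pos_left _ hApos
    omega
  set p := Nat.nth Nat.Prime (k - 1) with hpdef
  have hp : p.Prime := Nat.prime_nth_prime _
  have hpk : p.primeCounting = k := by
    have h1 : p.primeCounting = (p + 1).primeCounting' := rfl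
    rw [h1, Nat.primeCounting', Nat.count_succ, if_pos hp]
    have h2 : Nat.count Nat.Prime p = k - 1 := Nat.primeCounting'_nth_eq (k - 1)
    omega
  have hpgt : N + m < p := by
    have := pc_lt hp
    omega
  refine ⟨p, ⟨hp, ?_⟩, by omega⟩
  by_contra hcon
  obtain ⟨l, hl, h1, h2⟩ := Nat.Prime.not_coprime_iff_dvd.mp hcon
  rw [hpk] at h1
  have hlm : l ∈ m.primeFactors := Nat.mem_primeFactors.mpr ⟨hl, h2, by omega⟩
  have hlp : ¬ l ∣ p := by
    intro h
    have h3 := (Nat.prime_dvd_prime_iff_eq hl hp).mp h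
    have h4 := Nat.le_of_dvd hm h2
    omega
  by_cases hla : l ∣ a
  · have h3 : l ∣ A' := Finset.dvd_prod_of_mem (fun l => l) (Finset.mem_filter.mpr ⟨hlm, hla⟩)
    have h4 : l ∣ k := (Nat.dvd_add_right (Dvd.dvd.mul_left hla p)).mp h1
    rw [hk] at h4
    rcases (Nat.Prime.dvd_mul hl).mp h4 with h5 | h5
    · -- l divides A, so it is one of its prime factors
      rw [hA, hl.prime.dvd_finsetProd_iff] at h5
      obtain ⟨l', hl', hd⟩ := h5
      rw [Finset.mem_filter] at hl'
      have := (Nat.prime_dvd_prime_iff_eq hl (Nat.prime_of_mem_primeFactors hl'.1)).mp hd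
      rw [this] at hla
      exact hl'.2 hla
    · have h6 : l ∣ 1 := (Nat.dvd_add_left (Dvd.dvd.mul_right h3 _)).mp h5
      exact hl.one_lt.ne' (Nat.dvd_one.mp h6)
  · have h3 : l ∣ A := Finset.dvd_prod_of_mem (fun l => l) (Finset.mem_filter.mpr ⟨hlm, hla⟩)
    have h4 : l ∣ k := Dvd.dvd.mul_right h3 _
    have h5 : l ∣ p * a := (Nat.dvd_add_left h4).mp h1
    rcases (Nat.Prime.dvd_mul hl).mp h5 with h6 | h6
    · exact hlp h6
    · exact hla h6

/-- the numbers `1 ≤ n ≤ X`, `n ≡ a` modulo `m`, with least witness `p` -/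
theorem density (m a p : ℕ) (hm : 0 < m) (hp : p.Prime)
    (hc : Nat.Coprime (p * a + p.primeCounting) m) :
    Tendsto (fun X : ℕ => (({n : ℕ | 1 ≤ n ∧ n ≤ X ∧ n ≡ a [MOD m] ∧
        IsLeast {q : ℕ | q.Prime ∧ (q * n + q.primeCounting).Prime} p}.ncard : ℕ) : ℝ) /
          ((X : ℝ) / Real.log X)) atTop (𝓝 ((p : ℝ) / (p * m).totient)) := by
  classical
  have hcp : Nat.Coprime (p * a + p.primeCounting) p := by
    rw [Nat.coprime_comm, Nat.Prime.coprime_iff_not_dvd hp]
    intro h
    have h1 : p ∣ p.primeCounting := (Nat.dvd_add_right (dvd_mul_right p a)).1 h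
    exact Nat.not_dvd_of_pos_of_lt (pc_pos hp) (pc_lt hp) h1
  have hF := count_F m a p p.primeCounting hm hp.pos (Nat.Coprime.mul_right hcp hc)
  have hG : ∀ q : ℕ, q.Prime → q ≠ p → Tendsto (fun X : ℕ =>
      ((G p p.primeCounting q q.primeCounting X).card : ℝ) / ((X : ℝ) / Real.log X)) atTop
        (𝓝 0) := by
    intro q hq hqp
    apply count_G _ _ _ _ hp.pos hq.pos
    intro h
    have h1 : p ∣ q * p.primeCounting := ⟨_, h⟩
    rcases (Nat.Prime.dvd_mul hp).1 h1 with h2 | h2
    · exact hqp ((Nat.prime_dvd_prime_iff_eq hp hq).1 h2).symm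
    · exact Nat.not_dvd_of_pos_of_lt (pc_pos hp) (pc_lt hp) h2
  obtain ⟨S, hS⟩ : ∃ S : Finset ℕ, S = (Finset.range p).filter Nat.Prime := ⟨_, rfl⟩
  have hsum : Tendsto (fun X : ℕ => ∑ q ∈ S,
      ((G p p.primeCounting q q.primeCounting X).card : ℝ) / ((X : ℝ) / Real.log X)) atTop
        (𝓝 (∑ q ∈ S, (0 : ℝ))) := by
    apply tendsto_finset_sum
    intro q hq
    rw [hS, Finset.mem_filter, Finset.mem_range] at hq
    exact hG q hq.2 hq.1.ne
  rw [Finset.sum_const_zero] at hsum
  have hlow := hF.sub hsum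
  rw [sub_zero] at hlow
  -- the set as a finset
  have hset : ∀ X : ℕ, ({n : ℕ | 1 ≤ n ∧ n ≤ X ∧ n ≡ a [MOD m] ∧
      IsLeast {q : ℕ | q.Prime ∧ (q * n + q.primeCounting).Prime} p}.ncard) =
      ((Finset.Icc 1 X).filter (fun n => n ≡ a [MOD m] ∧
        IsLeast {q : ℕ | q.Prime ∧ (q * n + q.primeCounting).Prime} p)).card := by
    intro X
    rw [← Set.ncard_coe_finset]
    congr 1
    ext n
    simp [Finset.mem_filter, Finset.mem_Icc, and_assoc]
  have hup : ∀ X : ℕ, ((Finset.Icc 1 X).filter (fun n => n ≡ a [MOD m] ∧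
        IsLeast {q : ℕ | q.Prime ∧ (q * n + q.primeCounting).Prime} p)).card ≤
      (F m a p p.primeCounting X).card := by
    intro X
    apply Finset.card_le_card
    intro n hn
    rw [Finset.mem_filter] at hn
    unfold F
    rw [Finset.mem_filter]
    exact ⟨hn.1, hn.2.1, hn.2.2.1.2⟩
  have hlo : ∀ X : ℕ, (F m a p p.primeCounting X).card ≤
      ((Finset.Icc 1 X).filter (fun n => n ≡ a [MOD m] ∧
        IsLeast {q : ℕ | q.Prime ∧ (q * n + q.primeCounting).Prime} p)).card +
      ∑ q ∈ S, (G p p.primeCounting q q.primeCounting X).card := by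
    intro X
    have h1 : F m a p p.primeCounting X ⊆
        ((Finset.Icc 1 X).filter (fun n => n ≡ a [MOD m] ∧
          IsLeast {q : ℕ | q.Prime ∧ (q * n + q.primeCounting).Prime} p)) ∪
        S.biUnion (fun q => G p p.primeCounting q q.primeCounting X) := by
      intro n hn
      unfold F at hn
      rw [Finset.mem_filter] at hn
      rw [Finset.mem_union, Finset.mem_filter, Finset.mem_biUnion]
      by_cases hex : ∃ q ∈ S, (q * n + q.primeCounting).Prime
      · obtain ⟨q, hq1, hq2⟩ := hex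
        right
        refine ⟨q, hq1, ?_⟩
        unfold G
        rw [Finset.mem_filter]
        exact ⟨hn.1, hn.2.2, hq2⟩
      · left
        refine ⟨hn.1, hn.2.1, ⟨hp, hn.2.2⟩, ?_⟩
        rintro q ⟨hq1, hq2⟩
        by_contra hlt
        apply hex
        refine ⟨q, ?_, hq2⟩
        rw [hS, Finset.mem_filter, Finset.mem_range]
        exact ⟨by omega, hq1⟩
    exact (Finset.card_le_card h1).trans ((Finset.card_union_le _ _).trans
      (Nat.add_le_add_left Finset.card_biUnion_le _))
  simp only [hset]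
  refine tendsto_of_tendsto_of_tendsto_of_le_of_le' hlow hF ?_ ?_
  · filter_upwards [eventually_ge_atTop 2] with X hX
    have hX0 : (0 : ℝ) < X := by exact_mod_cast (by omega : 0 < X)
    have hlog : 0 < Real.log (X : ℝ) := Real.log_pos (by exact_mod_cast (by omega : 1 < X))
    rw [← Finset.sum_div, ← sub_div]
    apply div_le_div_of_nonneg_right _ (by positivity)
    have h2 : ((F m a p p.primeCounting X).card : ℝ) ≤
      (((Finset.Icc 1 X).filter (fun n => n ≡ a [MOD m] ∧
        IsLeast {q : ℕ | q.Prime ∧ (q * n + q.primeCounting).Prime} p)).card : ℝ) +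
      ∑ q ∈ S, ((G p p.primeCounting q q.primeCounting X).card : ℝ) := by
      exact_mod_cast hlo X
    linarith
  · filter_upwards [eventually_ge_atTop 2] with X hX
    have hX0 : (0 : ℝ) < X := by exact_mod_cast (by omega : 0 < X)
    have hlog : 0 < Real.log (X : ℝ) := Real.log_pos (by exact_mod_cast (by omega : 1 < X))
    apply div_le_div_of_nonneg_right _ (by positivity)
    exact_mod_cast hup X

end Pool.Agent.H80W
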